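import Mathlib

/-!
# Conditionally flat localization functors on groups that are not epireflections (MP_52d248_al, Q1)

For every nonempty set `P` of primes, let `L_P G` be the group `(G_ab / torsion)[1/P]`, realised as the
subgroup of the elements `x` of `ℚ ⊗ G_ab` with `m x` in the image of `G` for some product `m` of elements
of `P`. This is a localization functor on the category of groups; its local groups are the torsion-free
abelian groups that are `p`-divisible for all `p` in `P`. We prove that it is conditionally flat, that it is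
not an epireflection (the unit `ℤ → ℤ[1/P]` is not surjective), and that it is right exact only if `P` is the
set of all primes.
-/

set_option autoImplicit false

namespace Pool.Agent.Results.MP_52d248_al.TorsionFreeAbelian

open CategoryTheory TensorProduct

universe u

/-- A localization functor on the category of groups: a functor `L` with a natural transformation
`η : Id → L` such that `L (η_G)` and `η_(L G)` are equal isomorphisms `L G → L L G` for every `G`. -/
structure LocalizationFunctor where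
  /-- the functor -/
  L : GrpCat.{u} ⥤ GrpCat.{u}
  /-- the natural transformation -/
  η : 𝟭 GrpCat.{u} ⟶ L
  /-- `L (η_G) = η_(L G)` -/
  map_eta : ∀ G : GrpCat.{u}, L.map (η.app G) = η.app (L.obj G)
  /-- `η_(L G)` is an isomorphism -/
  isIso : ∀ G : GrpCat.{u}, IsIso (η.app (L.obj G))

/-- `G` is `L`-local if `η_G` is an isomorphism. -/
def LocalizationFunctor.IsLocal (𝓛 : LocalizationFunctor.{u}) (G : GrpCat.{u}) : Prop :=
  IsIso (𝓛.η.app G)

/-- `L` is an epireflection if `η_G : G → L G` is surjective for every group `G`. -/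
def LocalizationFunctor.IsEpireflection (𝓛 : LocalizationFunctor.{u}) : Prop :=
  ∀ G : GrpCat.{u}, Function.Surjective (𝓛.η.app G).hom

/-- The sequence `1 → N → E → G → 1` is short exact. -/
def IsShortExact {N E G : GrpCat.{u}} (i : N ⟶ E) (p : E ⟶ G) : Prop :=
  Function.Injective i.hom ∧ Function.Surjective p.hom ∧ i.hom.range = p.hom.ker

/-- The group `E ×_G H` of the pairs `(e, h)` with `p e = f h`. -/
def pb {E G H : GrpCat.{u}} (p : E ⟶ G) (f : H ⟶ G) : GrpCat.{u} :=
  GrpCat.of ↥((p.hom.comp (MonoidHom.fst E H)).eqLocus (f.hom.comp (MonoidHom.snd E H)))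

/-- The homomorphism `N → E ×_G H`, `n ↦ (i n, 1)`, if `p (i n) = 1` for all `n`. -/
def pbLeft {N E G H : GrpCat.{u}} (i : N ⟶ E) (p : E ⟶ G) (f : H ⟶ G)
    (h : ∀ n : N, p.hom (i.hom n) = 1) : N ⟶ pb p f :=
  GrpCat.ofHom ((i.hom.prod (1 : N →* H)).codRestrict _ (fun n => by
    change p.hom (i.hom n) = f.hom 1
    rw [h n, map_one]))

/-- The projection `E ×_G H → H`. -/
def pbRight {E G H : GrpCat.{u}} (p : E ⟶ G) (f : H ⟶ G) : pb p f ⟶ H :=
  GrpCat.ofHom ((MonoidHom.snd E H).comp (Subgroup.subtype _))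

/-- `L` is conditionally flat: for every short exact sequence `1 → N → E → G → 1` such that
`1 → L N → L E → L G → 1` is short exact and every homomorphism `H → G`, the sequence
`1 → L N → L (E ×_G H) → L H → 1` is short exact. -/
def LocalizationFunctor.IsConditionallyFlat (𝓛 : LocalizationFunctor.{u}) : Prop :=
  ∀ (N E G H : GrpCat.{u}) (i : N ⟶ E) (p : E ⟶ G) (f : H ⟶ G) (hip : IsShortExact i p),
    IsShortExact (𝓛.L.map i) (𝓛.L.map p) →
    IsShortExact
      (𝓛.L.map (pbLeft i p f (fun n => by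
        have h : i.hom n ∈ i.hom.range := ⟨n, rfl⟩
        rw [hip.2.2] at h
        exact h)))
      (𝓛.L.map (pbRight p f))

/-- `L` is right exact: for every short exact sequence `1 → N → E → G → 1`, the sequence
`L N → L E → L G → 1` is exact. -/
def LocalizationFunctor.IsRightExact (𝓛 : LocalizationFunctor.{u}) : Prop :=
  ∀ (N E G : GrpCat.{u}) (i : N ⟶ E) (p : E ⟶ G), IsShortExact i p →
    Function.Surjective (𝓛.L.map p).hom ∧ (𝓛.L.map i).hom.range = (𝓛.L.map p).hom.ker

/-! ### The functors -/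

section construction

/-- the abelianization, written additively -/
abbrev Ab (G : Type u) [Group G] : Type u := Additive (Abelianization G)

/-- the rational vector space `ℚ ⊗ G_ab` -/
abbrev V (G : Type u) [Group G] : Type u := ℚ ⊗[ℤ] Ab G

/-- the class of `g` in the abelianization -/
def cl {G : Type u} [Group G] (g : G) : Ab G := Additive.ofMul (Abelianization.of g)

/-- the element `1 ⊗ g` -/
def io {G : Type u} [Group G] (g : G) : V G := (1 : ℚ) ⊗ₜ[ℤ] cl g

lemma cl_mul {G : Type u} [Group G] (g h : G) : cl (g * h) = cl g + cl h := by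
  simp [cl]

lemma cl_pow {G : Type u} [Group G] (g : G) (n : ℕ) : cl (g ^ n) = n • cl g := by
  simp [cl]

lemma io_one {G : Type u} [Group G] : io (1 : G) = 0 := by
  simp [io, cl]

lemma io_mul {G : Type u} [Group G] (g h : G) : io (g * h) = io g + io h := by
  simp [io, cl_mul, TensorProduct.tmul_add]

lemma io_inv {G : Type u} [Group G] (g : G) : io (g⁻¹) = - io g := by
  rw [eq_neg_iff_add_eq_zero, ← io_mul, inv_mul_cancel, io_one]

lemma io_pow {G : Type u} [Group G] (g : G) (n : ℕ) : io (g ^ n) = n • io g := by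
  simp [io, cl_pow]

lemma cl_eq_zero {G : Type u} [Group G] (g : G) : cl g = 0 ↔ g ∈ commutator G := by
  have : Abelianization.of g = 1 ↔ g ∈ commutator G := by
    rw [← MonoidHom.mem_ker, Abelianization.ker_of]
  exact this

/-- `1 ⊗ g = 0` iff some positive power of `g` is in the commutator subgroup -/
lemma io_eq_zero {G : Type u} [Group G] (g : G) : io g = 0 ↔ ∃ n : ℕ, 0 < n ∧ g ^ n ∈ commutator G := by
  have hloc : IsLocalizedModule (nonZeroDivisors ℤ) (TensorProduct.mk ℤ ℚ (Ab G) 1) := inferInstance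
  have h1 : io g = TensorProduct.mk ℤ ℚ (Ab G) 1 (cl g) := rfl
  constructor
  · intro h
    rw [h1, IsLocalizedModule.eq_zero_iff (nonZeroDivisors ℤ)] at h
    obtain ⟨⟨c, hc⟩, h⟩ := h
    have hc0 : c ≠ 0 := nonZeroDivisors.ne_zero hc
    refine ⟨c.natAbs, Int.natAbs_pos.2 hc0, ?_⟩
    rw [← cl_eq_zero, cl_pow]
    have h2 : c • cl g = 0 := h
    rcases Int.natAbs_eq c with h3 | h3
    · rw [h3, natCast_zsmul] at h2
      exact h2
    · rw [h3, neg_smul, natCast_zsmul, neg_eq_zero] at h2
      exact h2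
  · rintro ⟨n, hn, h⟩
    rw [← cl_eq_zero, cl_pow] at h
    rw [h1, IsLocalizedModule.eq_zero_iff (nonZeroDivisors ℤ)]
    refine ⟨⟨(n : ℤ), mem_nonZeroDivisors_of_ne_zero (by exact_mod_cast hn.ne')⟩, ?_⟩
    change (n : ℤ) • cl g = 0
    rw [natCast_zsmul]
    exact h

lemma V_torsionfree {G : Type u} [Group G] (x : V G) (n : ℕ) (hn : 0 < n) (h : n • x = 0) : x = 0 := by
  have h1 : (n : ℚ) • x = 0 := by
    rw [← h]
    exact Nat.cast_smul_eq_nsmul ℚ n x
  rcases smul_eq_zero.1 h1 with h2 | h2
  · exact absurd h2 (by exact_mod_cast hn.ne')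
  · exact h2

variable (P : Set ℕ)

/-- the subgroup of the `x` in `ℚ ⊗ G_ab` with `m x` in the image of `G` for some product `m` of elements of
`P` -/
def LL (G : Type u) [Group G] : AddSubgroup (V G) where
  carrier := {x | ∃ m ∈ Submonoid.closure P, ∃ g : G, m • x = io g}
  zero_mem' := ⟨1, one_mem _, 1, by simp [io_one]⟩
  add_mem' := by
    rintro x y ⟨m, hm, g, hg⟩ ⟨n, hn, h, hh⟩
    refine ⟨m * n, mul_mem hm hn, g ^ n * h ^ m, ?_⟩
    rw [io_mul, io_pow, io_pow, ← hg, ← hh, smul_add, smul_smul, smul_smul, mul_comm n m]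
  neg_mem' := by
    rintro x ⟨m, hm, g, hg⟩
    exact ⟨m, hm, g⁻¹, by rw [io_inv, ← hg, smul_neg]⟩

lemma mem_LL (G : Type u) [Group G] (x : V G) :
    x ∈ LL P G ↔ ∃ m ∈ Submonoid.closure P, ∃ g : G, m • x = io g := Iff.rfl

lemma io_mem (G : Type u) [Group G] (g : G) : io g ∈ LL P G := ⟨1, one_mem _, g, by simp⟩

/-- the additive map induced by a homomorphism -/
def Vmap {G H : Type u} [Group G] [Group H] (f : G →* H) : V G →+ V H :=
  (LinearMap.lTensor ℚ (MonoidHom.toAdditive (Abelianization.map f)).toIntLinearMap).toAddMonoidHom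

lemma Vmap_io {G H : Type u} [Group G] [Group H] (f : G →* H) (g : G) : Vmap f (io g) = io (f g) := by
  exact LinearMap.lTensor_tmul (R := ℤ) ℚ (MonoidHom.toAdditive (Abelianization.map f)).toIntLinearMap
    (1 : ℚ) (cl g)

lemma Vmap_mem {G H : Type u} [Group G] [Group H] (f : G →* H) (x : V G) (hx : x ∈ LL P G) :
    Vmap f x ∈ LL P H := by
  obtain ⟨m, hm, g, hg⟩ := hx
  exact ⟨m, hm, f g, by rw [← map_nsmul, hg, Vmap_io]⟩

/-- the induced map on the groups `LL` -/
def Lmap {G H : Type u} [Group G] [Group H] (f : G →* H) : LL P G →+ LL P H :=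
  ((Vmap f).comp (LL P G).subtype).codRestrict (LL P H)
    (fun x => Vmap_mem P f x.1 x.2)

lemma Lmap_coe {G H : Type u} [Group G] [Group H] (f : G →* H) (x : LL P G) :
    (Lmap P f x : V H) = Vmap f x := rfl

lemma pos_of_mem {P : Set ℕ} (hP : ∀ p ∈ P, p.Prime) {m : ℕ} (hm : m ∈ Submonoid.closure P) : 0 < m := by
  induction hm using Submonoid.closure_induction with
  | mem x hx => exact (hP x hx).pos
  | one => exact one_pos
  | mul x y _ _ hx hy => exact Nat.mul_pos hx hy

/-- two homomorphisms from `LL P G` to a torsion-free abelian group that agree on `G` are equal -/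
lemma LL_hom_ext (hP : ∀ p ∈ P, p.Prime) {G : Type u} [Group G] {A : Type u} [AddCommGroup A]
    (hA : ∀ (a : A) (n : ℕ), 0 < n → n • a = 0 → a = 0) (f g : LL P G →+ A)
    (h : ∀ x : G, f ⟨io x, io_mem P G x⟩ = g ⟨io x, io_mem P G x⟩) : f = g := by
  ext x
  obtain ⟨x, m, hm, y, hy⟩ := x
  have h1 : m • f ⟨x, m, hm, y, hy⟩ = m • g ⟨x, m, hm, y, hy⟩ := by
    rw [← map_nsmul, ← map_nsmul]
    have h2 : m • (⟨x, m, hm, y, hy⟩ : LL P G) = ⟨io y, io_mem P G y⟩ := Subtype.ext hy
    rw [h2, h y]
  have h3 := hA (f ⟨x, m, hm, y, hy⟩ - g ⟨x, m, hm, y, hy⟩) m (pos_of_mem hP hm)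
    (by rw [smul_sub, h1, sub_self])
  exact sub_eq_zero.1 h3

lemma LL_torsionfree {G : Type u} [Group G] (x : LL P G) (n : ℕ) (hn : 0 < n) (h : n • x = 0) :
    x = 0 := by
  apply Subtype.ext
  apply V_torsionfree _ n hn
  have := congrArg Subtype.val h
  simpa using this

/-- every element of `LL P G` is `m`-divisible -/
lemma LL_divisible (hP : ∀ p ∈ P, p.Prime) {G : Type u} [Group G] (x : LL P G) {m : ℕ}
    (hm : m ∈ Submonoid.closure P) : ∃ y : LL P G, m • y = x := by
  obtain ⟨x, n, hn, g, hg⟩ := x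
  have hm0 : (m : ℚ) ≠ 0 := by exact_mod_cast (pos_of_mem hP hm).ne'
  have h1 : m • (((m : ℚ)⁻¹) • x) = x := by
    rw [← Nat.cast_smul_eq_nsmul ℚ m, smul_smul, mul_inv_cancel₀ hm0, one_smul]
  refine ⟨⟨((m : ℚ)⁻¹) • x, n * m, mul_mem hn hm, g, ?_⟩, Subtype.ext h1⟩
  rw [mul_smul, h1, hg]

/-- the functor `L_P` -/
def LF : GrpCat.{u} ⥤ GrpCat.{u} where
  obj G := GrpCat.of (Multiplicative (LL P G))
  map f := GrpCat.ofHom (AddMonoidHom.toMultiplicative (Lmap P f.hom))
  map_id G := by
    apply GrpCat.hom_ext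
    ext x
    apply Multiplicative.toAdd.injective
    apply Subtype.ext
    change Vmap (MonoidHom.id G) _ = _
    unfold Vmap
    rw [Abelianization.map_id]
    exact LinearMap.congr_fun (LinearMap.lTensor_id ℚ (Ab G)) _
  map_comp f g := by
    apply GrpCat.hom_ext
    ext x
    apply Multiplicative.toAdd.injective
    apply Subtype.ext
    have h1 := LinearMap.lTensor_comp_apply (R := ℤ) ℚ
      (MonoidHom.toAdditive (Abelianization.map g.hom)).toIntLinearMap
      (MonoidHom.toAdditive (Abelianization.map f.hom)).toIntLinearMap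
      ((Multiplicative.toAdd x : LL P _) : V _)
    have h2 : (MonoidHom.toAdditive (Abelianization.map (g.hom.comp f.hom))).toIntLinearMap =
        (MonoidHom.toAdditive (Abelianization.map g.hom)).toIntLinearMap ∘ₗ
          (MonoidHom.toAdditive (Abelianization.map f.hom)).toIntLinearMap := by
      rw [← Abelianization.map_comp]
      rfl
    rw [← h2] at h1
    exact h1

/-- the unit `G → L_P G` -/
def un (G : Type u) [Group G] : G →* Multiplicative (LL P G) where
  toFun g := Multiplicative.ofAdd ⟨io g, io_mem P G g⟩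
  map_one' := by
    apply Multiplicative.toAdd.injective
    exact Subtype.ext io_one
  map_mul' g h := by
    apply Multiplicative.toAdd.injective
    exact Subtype.ext (io_mul g h)

/-- the natural transformation -/
def et : 𝟭 GrpCat.{u} ⟶ LF P where
  app G := GrpCat.ofHom (un P G)
  naturality G H f := by
    apply GrpCat.hom_ext
    ext x
    apply Multiplicative.toAdd.injective
    apply Subtype.ext
    exact (Vmap_io f.hom x).symm

/-- a torsion-free abelian group in which all elements are divisible by the elements of `P` is local -/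
lemma un_bijective (hP : ∀ p ∈ P, p.Prime) (A : Type u) [Group A] (hc : ∀ x y : A, x * y = y * x)
    (ht : ∀ (x : A) (n : ℕ), 0 < n → x ^ n = 1 → x = 1) (hd : ∀ p ∈ P, ∀ x : A, ∃ y : A, y ^ p = x) :
    Function.Bijective (un P A) := by
  have hcomm : commutator A = ⊥ := by
    rw [eq_bot_iff, commutator_def, Subgroup.commutator_le]
    intro x _ y _
    rw [Subgroup.mem_bot, commutatorElement_def, hc x y]
    group
  have hd' : ∀ m ∈ Submonoid.closure P, ∀ x : A, ∃ y : A, y ^ m = x := by
    intro m hm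
    induction hm using Submonoid.closure_induction with
    | mem p hp => exact hd p hp
    | one => exact fun x => ⟨x, pow_one x⟩
    | mul a b _ _ iha ihb =>
      intro x
      obtain ⟨y, hy⟩ := iha x
      obtain ⟨z, hz⟩ := ihb y
      exact ⟨z, by rw [mul_comm, pow_mul, hz, hy]⟩
  constructor
  · rw [injective_iff_map_eq_one]
    intro a ha
    have h1 : io a = 0 := congrArg (fun z => ((Multiplicative.toAdd z : LL P A) : V A)) ha
    rw [io_eq_zero] at h1
    obtain ⟨n, hn, h2⟩ := h1
    rw [hcomm, Subgroup.mem_bot] at h2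
    exact ht a n hn h2
  · intro x
    obtain ⟨m, hm, g, hg⟩ := (Multiplicative.toAdd x).2
    obtain ⟨y, hy⟩ := hd' m hm g
    refine ⟨y, ?_⟩
    apply Multiplicative.toAdd.injective
    apply Subtype.ext
    change io y = _
    rw [← hy, io_pow] at hg
    have h2 := V_torsionfree (((Multiplicative.toAdd x : LL P A) : V A) - io y) m (pos_of_mem hP hm)
      (by rw [smul_sub, hg, sub_self])
    exact (sub_eq_zero.1 h2).symm

lemma isIso_of_bijective {G H : GrpCat.{u}} (f : G ⟶ H) (hf : Function.Bijective f.hom) : IsIso f := by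
  have e : f = (MulEquiv.ofBijective f.hom hf).toGrpIso.hom := by
    apply GrpCat.hom_ext
    ext x
    rfl
  rw [e]
  infer_instance

lemma bijective_of_isIso {G H : GrpCat.{u}} (f : G ⟶ H) [IsIso f] : Function.Bijective f.hom := by
  constructor
  · intro x y h
    have h1 : ∀ z : G, (inv f).hom (f.hom z) = z := fun z => by
      have := congrArg (fun k => k.hom z) (IsIso.hom_inv_id f)
      exact this
    rw [← h1 x, ← h1 y, h]
  · intro y
    refine ⟨(inv f).hom y, ?_⟩
    have := congrArg (fun k => k.hom y) (IsIso.inv_hom_id f)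
    exact this

/-- the localization functor `L_P` -/
def loc (hP : ∀ p ∈ P, p.Prime) : LocalizationFunctor.{u} where
  L := LF P
  η := et P
  map_eta G := by
    apply GrpCat.hom_ext
    have h := LL_hom_ext P hP (G := G) (A := LL P (Multiplicative (LL P G)))
      (fun a n hn h => LL_torsionfree P a n hn h)
      (Lmap P (un P G)) (MonoidHom.toAdditive (un P (Multiplicative (LL P G)))) (fun x => by
        apply Subtype.ext
        exact Vmap_io (un P G) x)
    ext x
    apply Multiplicative.toAdd.injective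
    exact congrArg (fun k : LL P G →+ LL P (Multiplicative (LL P G)) => k (Multiplicative.toAdd x)) h
  isIso G := by
    apply isIso_of_bijective
    apply un_bijective P hP
    · intro x y
      exact mul_comm (G := Multiplicative (LL P G)) x y
    · intro x n hn h
      exact LL_torsionfree P (Multiplicative.toAdd x : LL P G) n hn h
    · intro p hp x
      exact LL_divisible P hP (Multiplicative.toAdd x : LL P G) (Submonoid.subset_closure hp)

/-- the local groups -/
lemma isLocal_iff (hP : ∀ p ∈ P, p.Prime) (A : GrpCat.{u}) : (loc P hP).IsLocal A ↔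
    (∀ x y : A, x * y = y * x) ∧ (∀ (x : A) (n : ℕ), 0 < n → x ^ n = 1 → x = 1) ∧
      ∀ p ∈ P, ∀ x : A, ∃ y : A, y ^ p = x := by
  constructor
  · intro h
    have h' : IsIso ((et P).app A) := h
    have hb : Function.Bijective (un P A) := bijective_of_isIso ((et P).app A)
    refine ⟨fun x y => ?_, fun x n hn hx => ?_, fun p hp x => ?_⟩
    · apply hb.1
      rw [map_mul, map_mul, mul_comm]
    · apply hb.1
      rw [map_one]
      have h1 : (un P A x) ^ n = 1 := by rw [← map_pow, hx, map_one]
      exact LL_torsionfree P (Multiplicative.toAdd (un P A x) : LL P A) n hn h1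
    · obtain ⟨y, hy⟩ := LL_divisible P hP (Multiplicative.toAdd (un P A x) : LL P A)
        (Submonoid.subset_closure hp)
      obtain ⟨z, hz⟩ := hb.2 (Multiplicative.ofAdd y)
      refine ⟨z, hb.1 ?_⟩
      rw [map_pow, hz]
      exact hy
  · rintro ⟨hc, ht, hd⟩
    exact isIso_of_bijective _ (un_bijective P hP A hc ht hd)

/-- two elements of `LL P G` are equal if they have equal multiples -/
lemma LL_cancel {G : Type u} [Group G] (x y : LL P G) (n : ℕ) (hn : 0 < n) (h : n • x = n • y) :
    x = y := by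
  have := LL_torsionfree P (x - y) n hn (by rw [smul_sub, h, sub_self])
  exact sub_eq_zero.1 this

lemma io_pow_eq_zero {G : Type u} [Group G] (g : G) (n : ℕ) (hn : 0 < n) (h : io (g ^ n) = 0) :
    io g = 0 := by
  rw [io_pow] at h
  exact V_torsionfree _ n hn h

/-- surjectivity of the induced maps -/
lemma Lmap_surjective (hP : ∀ p ∈ P, p.Prime) {G H : Type u} [Group G] [Group H] (f : G →* H)
    (hf : Function.Surjective f) : Function.Surjective (Lmap P f) := by
  rintro ⟨y, m, hm, h, hy⟩
  obtain ⟨g, rfl⟩ := hf h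
  obtain ⟨x, hx⟩ := LL_divisible P hP (⟨io g, io_mem P G g⟩ : LL P G) hm
  refine ⟨x, ?_⟩
  apply LL_cancel P _ _ m (pos_of_mem hP hm)
  rw [← map_nsmul, hx]
  apply Subtype.ext
  rw [Lmap_coe, Vmap_io]
  exact hy.symm

/-- elements of the commutator subgroup lift along surjections -/
lemma lift_commutator {G H : Type u} [Group G] [Group H] (f : G →* H)
    (hf : Function.Surjective f) (c : H) (hc : c ∈ commutator H) : ∃ d ∈ commutator G, f d = c := by
  have h1 : (commutator G).map f = commutator H := by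
    rw [commutator_def, Subgroup.map_commutator, ← MonoidHom.range_eq_map,
      MonoidHom.range_eq_top.2 hf, commutator_def]
  rw [← h1] at hc
  exact hc

/-- the conditional flatness of `L_P` -/
lemma flat (hP : ∀ p ∈ P, p.Prime) : (loc.{u} P hP).IsConditionallyFlat := by
  intro N E G H i p f hip hL
  obtain ⟨hi, hp, hex⟩ := hip
  obtain ⟨hLi, hLp, hLex⟩ := hL
  have hLi' : Function.Injective (Lmap P i.hom) := hLi
  have hpi : ∀ n : N, p.hom (i.hom n) = 1 := fun n => by
    have h : i.hom n ∈ i.hom.range := ⟨n, rfl⟩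
    rw [hex] at h
    exact h
  -- the three maps
  let E' : Type u := pb p f
  let pE : E' →* E := (MonoidHom.fst E H).comp (Subgroup.subtype _)
  let pH : E' →* H := (pbRight p f).hom
  let j : N →* E' := (pbLeft i p f hpi).hom
  have hpE : ∀ n : N, pE (j n) = i.hom n := fun n => rfl
  have hpHj : ∀ n : N, pH (j n) = 1 := fun n => rfl
  have hfp : ∀ e : E', p.hom (pE e) = f.hom (pH e) := fun e => e.2
  have hpH : Function.Surjective pH := by
    intro h
    obtain ⟨e, he⟩ := hp (f.hom h)
    exact ⟨⟨(e, h), he⟩, rfl⟩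
  have hmem : ∀ e : E', pH e = 1 → ∃ n : N, j n = e := by
    intro e he
    have h1 : pE e ∈ i.hom.range := by
      rw [hex]
      change p.hom (pE e) = 1
      rw [hfp, he, map_one]
    obtain ⟨n, hn⟩ := h1
    refine ⟨n, ?_⟩
    apply Subtype.ext
    apply Prod.ext
    · exact hn
    · exact he.symm
  -- injectivity of `LE' → LE × LH`
  have hinj : ∀ e : E', io (pE e) = 0 → io (pH e) = 0 → io e = 0 := by
    intro e h1 h2
    obtain ⟨a, ha, h1⟩ := (io_eq_zero _).1 h1
    obtain ⟨b, hb, h2⟩ := (io_eq_zero _).1 h2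
    apply io_pow_eq_zero e (a * b) (Nat.mul_pos ha hb)
    have h3 : pE (e ^ (a * b)) ∈ commutator E := by
      rw [map_pow, pow_mul]
      exact pow_mem h1 b
    have h4 : pH (e ^ (a * b)) ∈ commutator H := by
      rw [map_pow, mul_comm, pow_mul]
      exact pow_mem h2 a
    obtain ⟨d, hd, hdc⟩ := lift_commutator pH hpH _ h4
    obtain ⟨n, hn⟩ := hmem (e ^ (a * b) * d⁻¹) (by rw [map_mul, map_inv, hdc, mul_inv_cancel])
    have h5 : e ^ (a * b) = j n * d := by rw [hn, inv_mul_cancel_right]
    have h6 : i.hom n ∈ commutator E := by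
      have h7 : pE (e ^ (a * b)) = i.hom n * pE d := by rw [h5, map_mul, hpE]
      have h8 : pE d ∈ commutator E := by
        have : (commutator E').map pE ≤ commutator E := by
          rw [commutator_def, Subgroup.map_commutator, commutator_def]
          exact Subgroup.commutator_mono le_top le_top
        exact this ⟨d, hd, rfl⟩
      have h9 : i.hom n = pE (e ^ (a * b)) * (pE d)⁻¹ := by rw [h7, mul_inv_cancel_right]
      rw [h9]
      exact mul_mem h3 (inv_mem h8)
    have h7 : io n = 0 := by
      have h8 : Lmap P i.hom ⟨io n, io_mem P N n⟩ = Lmap P i.hom 0 := by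
        rw [map_zero]
        apply Subtype.ext
        rw [Lmap_coe, Vmap_io]
        exact (io_eq_zero _).2 ⟨1, one_pos, by rw [pow_one]; exact h6⟩
      exact congrArg (fun z : LL P N => (z : V N)) (hLi' h8)
    have h8 : io (j n) = 0 := by rw [← Vmap_io, h7, map_zero]
    have h9 : io d = 0 := (io_eq_zero _).2 ⟨1, one_pos, by rw [pow_one]; exact hd⟩
    rw [h5, io_mul, h8, h9, add_zero]
  have hinj' : ∀ x : LL P E', Lmap P pE x = 0 → Lmap P pH x = 0 → x = 0 := by
    rintro ⟨x, m, hm, e, he⟩ h1 h2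
    apply LL_torsionfree P _ m (pos_of_mem hP hm)
    apply Subtype.ext
    change m • x = 0
    rw [he]
    apply hinj
    · have := congrArg (fun z => m • ((z : LL P E) : V E)) h1
      simp only [Lmap_coe, ← map_nsmul, he, Vmap_io] at this
      simpa using this
    · have := congrArg (fun z => m • ((z : LL P H) : V H)) h2
      simp only [Lmap_coe, ← map_nsmul, he, Vmap_io] at this
      simpa using this
  have hcomp : ∀ x : LL P N, Lmap P pE (Lmap P j x) = Lmap P i.hom x := by
    have h := LL_hom_ext P hP (G := N) (A := LL P E)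
      (fun a n hn h => LL_torsionfree P a n hn h) ((Lmap P pE).comp (Lmap P j)) (Lmap P i.hom)
      (fun x => by
        apply Subtype.ext
        change Vmap pE (Vmap j (io x)) = Vmap i.hom (io x)
        rw [Vmap_io, Vmap_io, Vmap_io]
        rfl)
    exact fun x => congrArg (fun k => k x) h
  have hcomp0 : ∀ x : LL P N, Lmap P pH (Lmap P j x) = 0 := by
    have h := LL_hom_ext P hP (G := N) (A := LL P H)
      (fun a n hn h => LL_torsionfree P a n hn h) ((Lmap P pH).comp (Lmap P j)) 0
      (fun x => by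
        apply Subtype.ext
        change Vmap pH (Vmap j (io x)) = 0
        rw [Vmap_io, Vmap_io]
        exact io_one)
    exact fun x => congrArg (fun k => k x) h
  refine ⟨?_, ?_, ?_⟩
  · intro x y hxy
    apply hLi
    have h1 : Lmap P j (Multiplicative.toAdd x) = Lmap P j (Multiplicative.toAdd y) := hxy
    change Lmap P i.hom (Multiplicative.toAdd x) = Lmap P i.hom (Multiplicative.toAdd y)
    rw [← hcomp, ← hcomp, h1]
  · exact Lmap_surjective P hP pH hpH
  · apply le_antisymm
    · rintro _ ⟨x, rfl⟩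
      exact hcomp0 (Multiplicative.toAdd x)
    · intro y hy
      have hy' : Lmap P pH (Multiplicative.toAdd y) = 0 := hy
      -- the image of `y` in `LE` comes from `LN`
      have h1 : (Multiplicative.ofAdd (Lmap P pE (Multiplicative.toAdd y)) : Multiplicative (LL P E)) ∈
          ((loc P hP).L.map i).hom.range := by
        rw [hLex]
        change Lmap P p.hom (Lmap P pE (Multiplicative.toAdd y)) = 0
        have h2 : ∀ z : LL P E', Lmap P p.hom (Lmap P pE z) = Lmap P f.hom (Lmap P pH z) := by
          have h := LL_hom_ext P hP (G := E') (A := LL P G)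
            (fun a n hn h => LL_torsionfree P a n hn h) ((Lmap P p.hom).comp (Lmap P pE))
            ((Lmap P f.hom).comp (Lmap P pH))
            (fun x => by
              apply Subtype.ext
              change Vmap p.hom (Vmap pE (io x)) = Vmap f.hom (Vmap pH (io x))
              rw [Vmap_io, Vmap_io, Vmap_io, Vmap_io, hfp])
          exact fun x => congrArg (fun k => k x) h
        rw [h2, hy', map_zero]
      obtain ⟨z, hz⟩ := h1
      have hz' : Lmap P i.hom (Multiplicative.toAdd z) = Lmap P pE (Multiplicative.toAdd y) := hz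
      have key : ∀ (z : LL P N) (y : LL P E'), Lmap P i.hom z = Lmap P pE y → Lmap P pH y = 0 →
          Lmap P j z = y := by
        intro z y h3 h4
        rw [← sub_eq_zero]
        apply hinj'
        · rw [map_sub, hcomp, h3, sub_self]
        · rw [map_sub, hcomp0, h4, sub_self]
      exact ⟨z, key _ _ hz' hy'⟩

lemma mem_closure_all {P : Set ℕ} (hall : ∀ q : ℕ, q.Prime → q ∈ P) (n : ℕ) (hn : 0 < n) :
    n ∈ Submonoid.closure P := by
  induction n using Nat.recOnPrimePow with
  | zero => exact absurd hn (lt_irrefl 0)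
  | one => exact one_mem _
  | prime_pow_mul a q k hq _ _ ih =>
    have ha : 0 < a := Nat.pos_of_mul_pos_left hn
    exact mul_mem (pow_mem (Submonoid.subset_closure (hall q hq)) k) (ih ha)

lemma prime_of_dvd {P : Set ℕ} (hP : ∀ p ∈ P, p.Prime) (q : ℕ) (hq : q.Prime) (m : ℕ)
    (hm : m ∈ Submonoid.closure P) (h : q ∣ m) : q ∈ P := by
  induction hm using Submonoid.closure_induction with
  | mem x hx =>
    rw [(Nat.prime_dvd_prime_iff_eq hq (hP x hx)).1 h]
    exact hx
  | one => exact absurd (Nat.dvd_one.1 h) hq.one_lt.ne'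
  | mul x y _ _ hx hy =>
    rcases (Nat.Prime.dvd_mul hq).1 h with h | h
    · exact hx h
    · exact hy h

/-- If `P` contains all primes then `L_P` is right exact. -/
lemma rightExact (hP : ∀ p ∈ P, p.Prime) (hall : ∀ q : ℕ, q.Prime → q ∈ P) :
    (loc.{u} P hP).IsRightExact := by
  intro N E G i p hip
  obtain ⟨hi, hp, hex⟩ := hip
  refine ⟨Lmap_surjective P hP p.hom hp, le_antisymm ?_ ?_⟩
  · rintro _ ⟨x, rfl⟩
    have h := LL_hom_ext P hP (G := N) (A := LL P G)
      (fun a n hn h => LL_torsionfree P a n hn h) ((Lmap P p.hom).comp (Lmap P i.hom)) 0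
      (fun x => by
        apply Subtype.ext
        change Vmap p.hom (Vmap i.hom (io x)) = 0
        rw [Vmap_io, Vmap_io]
        have h : i.hom x ∈ i.hom.range := ⟨x, rfl⟩
        rw [hex] at h
        have h1 : p.hom (i.hom x) = 1 := h
        rw [h1]
        exact io_one)
    exact congrArg (fun k : LL P N →+ LL P G => k (Multiplicative.toAdd x)) h
  · intro x hx
    have key : ∀ x : LL P E, Lmap P p.hom x = 0 → ∃ z : LL P N, Lmap P i.hom z = x := by
      rintro ⟨x, m, hm, e, he⟩ h1
      have h2 : io (p.hom e) = 0 := by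
        have := congrArg (fun z => m • ((z : LL P G) : V G)) h1
        simp only [Lmap_coe, ← map_nsmul, he, Vmap_io] at this
        simpa using this
      obtain ⟨n, hn, h3⟩ := (io_eq_zero _).1 h2
      rw [← map_pow] at h3
      obtain ⟨d, hd, hdc⟩ := lift_commutator p.hom hp _ h3
      have h4 : e ^ n * d⁻¹ ∈ i.hom.range := by
        rw [hex]
        change p.hom (e ^ n * d⁻¹) = 1
        rw [map_mul, map_inv, hdc, mul_inv_cancel]
      obtain ⟨y, hy⟩ := h4
      have h5 : io (i.hom y) = (n * m) • x := by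
        have h9 : io d = 0 := (io_eq_zero _).2 ⟨1, one_pos, by rw [pow_one]; exact hd⟩
        rw [hy, io_mul, io_inv, h9, neg_zero, add_zero, io_pow, ← he, smul_smul]
      have hnm : 0 < n * m := Nat.mul_pos hn (pos_of_mem hP hm)
      obtain ⟨z, hz⟩ := LL_divisible P hP (⟨io y, io_mem P N y⟩ : LL P N) (mem_closure_all hall _ hnm)
      refine ⟨z, LL_cancel P _ _ (n * m) hnm ?_⟩
      rw [← map_nsmul, hz]
      apply Subtype.ext
      rw [Lmap_coe, Vmap_io, h5]
      rfl
    obtain ⟨z, hz⟩ := key (Multiplicative.toAdd x) hx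
    exact ⟨Multiplicative.ofAdd z, hz⟩

/-- the infinite cyclic group -/
abbrev Zu : Type u := ULift.{u} (Multiplicative ℤ)

/-- the element `k` of the infinite cyclic group -/
def zz (k : ℤ) : Zu.{u} := ULift.up (Multiplicative.ofAdd k)

lemma zz_surj (x : Zu.{u}) : ∃ k, x = zz k := ⟨Multiplicative.toAdd x.down, rfl⟩

lemma zz_inj (a b : ℤ) (h : (zz a : Zu.{u}) = zz b) : a = b :=
  congrArg (fun z : Zu.{u} => Multiplicative.toAdd z.down) h

lemma zz_mul (a b : ℤ) : (zz a : Zu.{u}) * zz b = zz (a + b) := rfl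

lemma zz_one : (zz 0 : Zu.{u}) = 1 := rfl

lemma zz_pow (a : ℤ) (n : ℕ) : (zz a : Zu.{u}) ^ n = zz (n * a) := by
  induction n with
  | zero => simp [zz_one]
  | succ n ih =>
    rw [pow_succ, ih, zz_mul]
    congr 1
    push_cast
    ring

lemma zz_torsionfree (x : Zu.{u}) (n : ℕ) (hn : 0 < n) (h : x ^ n = 1) : x = 1 := by
  obtain ⟨k, rfl⟩ := zz_surj x
  rw [zz_pow, ← zz_one] at h
  have h1 := zz_inj _ _ h
  rw [← zz_one]
  congr 1
  rcases mul_eq_zero.1 h1 with h2 | h2
  · exact absurd h2 (by exact_mod_cast hn.ne')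
  · exact h2

lemma commutator_Zu : commutator Zu.{u} = ⊥ := by
  rw [eq_bot_iff, commutator_def, Subgroup.commutator_le]
  intro x _ y _
  rw [Subgroup.mem_bot, commutatorElement_def, mul_comm x y]
  group

lemma io_zz_inj (a b : ℤ) (h : io (zz a : Zu.{u}) = io (zz b)) : a = b := by
  have h1 : io (zz a * (zz b)⁻¹ : Zu.{u}) = 0 := by rw [io_mul, io_inv, h, add_neg_cancel]
  obtain ⟨n, hn, h2⟩ := (io_eq_zero _).1 h1
  rw [commutator_Zu, Subgroup.mem_bot] at h2
  have h3 := zz_torsionfree _ n hn h2
  rw [mul_inv_eq_one] at h3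
  exact zz_inj _ _ h3

/-- If `P` is not empty, then `L_P` is not an epireflection. -/
lemma not_epi (hP : ∀ p ∈ P, p.Prime) (hne : P.Nonempty) : ¬ (loc.{u} P hP).IsEpireflection := by
  intro h
  obtain ⟨q, hq⟩ := hne
  have h1 : Function.Surjective (un P Zu.{u}) := h (GrpCat.of Zu.{u})
  obtain ⟨x, hx⟩ := LL_divisible P hP (⟨io (zz 1 : Zu.{u}), io_mem P Zu.{u} _⟩ : LL P Zu.{u})
    (Submonoid.subset_closure hq)
  obtain ⟨y, hy⟩ := h1 (Multiplicative.ofAdd x)
  obtain ⟨k, rfl⟩ := zz_surj y
  have h2 : q • io (zz k : Zu.{u}) = io (zz 1) := by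
    have h3 : io (zz k : Zu.{u}) = (x : V Zu.{u}) :=
      congrArg (fun z => ((Multiplicative.toAdd z : LL P Zu.{u}) : V Zu.{u})) hy
    rw [h3]
    exact congrArg (fun z : LL P Zu.{u} => (z : V Zu.{u})) hx
  rw [← io_pow, zz_pow] at h2
  have h3 := io_zz_inj _ _ h2
  have h4 : (q : ℤ) ∣ 1 := ⟨k, h3.symm⟩
  have h5 := (hP q hq).one_lt
  have h6 := Int.eq_one_of_dvd_one (by positivity) h4
  omega

/-- If `L_P` is right exact then `P` contains all primes. -/
lemma all_of_rightExact (hP : ∀ p ∈ P, p.Prime) (h : (loc.{u} P hP).IsRightExact) (q : ℕ)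
    (hq : q.Prime) : q ∈ P := by
  -- the extension `ℤ → ℤ → ℤ/q`
  let i : Zu.{u} →* Zu.{u} := powMonoidHom q
  let p : Zu.{u} →* Zu.{u} ⧸ i.range := QuotientGroup.mk' i.range
  have hse : IsShortExact (GrpCat.ofHom i) (GrpCat.ofHom p) := by
    refine ⟨?_, ?_, ?_⟩
    · intro x y hxy
      obtain ⟨a, rfl⟩ := zz_surj x
      obtain ⟨b, rfl⟩ := zz_surj y
      have h1 : (zz a : Zu.{u}) ^ q = zz b ^ q := hxy
      rw [zz_pow, zz_pow] at h1
      have h2 := zz_inj _ _ h1
      have hq0 : (q : ℤ) ≠ 0 := by exact_mod_cast hq.ne_zero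
      rw [mul_left_cancel₀ hq0 h2]
    · exact QuotientGroup.mk'_surjective _
    · exact (QuotientGroup.ker_mk' _).symm
  obtain ⟨-, h2⟩ := h _ _ _ _ _ hse
  -- the image of `1` in `L ℤ` is in the image
  have h3 : (Multiplicative.ofAdd (⟨io (zz 1 : Zu.{u}), io_mem P Zu.{u} _⟩ : LL P Zu.{u})) ∈
      ((loc P hP).L.map (GrpCat.ofHom i)).hom.range := by
    rw [h2]
    change Lmap P p ⟨io (zz 1 : Zu.{u}), io_mem P Zu.{u} _⟩ = 0
    apply Subtype.ext
    rw [Lmap_coe, Vmap_io]
    rw [show ((0 : LL P (Zu.{u} ⧸ i.range)) : V (Zu.{u} ⧸ i.range)) = 0 from rfl, io_eq_zero]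
    refine ⟨q, hq.pos, ?_⟩
    have h4 : p (zz 1) ^ q = 1 := by
      rw [← map_pow]
      exact (QuotientGroup.eq_one_iff _).2 ⟨zz 1, rfl⟩
    rw [h4]
    exact one_mem _
  obtain ⟨z, hz⟩ := h3
  have key : ∀ z : LL P Zu.{u}, Lmap P i z = ⟨io (zz 1 : Zu.{u}), io_mem P Zu.{u} _⟩ → q ∈ P := by
    rintro ⟨z, m, hm, g, hg⟩ h4
    obtain ⟨k, rfl⟩ := zz_surj g
    have h5 : Vmap i z = io (zz 1 : Zu.{u}) := congrArg (fun w : LL P Zu.{u} => (w : V Zu.{u})) h4
    have h6 : io ((zz k : Zu.{u}) ^ q) = io ((zz 1 : Zu.{u}) ^ m) := by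
      have h7 : i (zz k) = (zz k : Zu.{u}) ^ q := rfl
      rw [io_pow (zz 1), ← h5, ← map_nsmul, hg, Vmap_io, h7]
    rw [zz_pow, zz_pow] at h6
    have h7 := io_zz_inj _ _ h6
    have h8 : (q : ℤ) ∣ (m : ℤ) := ⟨k, by rw [h7, mul_one]⟩
    exact prime_of_dvd hP q hq m hm (by exact_mod_cast h8)
  exact key (Multiplicative.toAdd z) hz

end construction

/-- For every nonempty set `P` of primes there is a localization functor `L` on the category of groups which
is conditionally flat but not an epireflection. The `L`-local groups are the torsion-free abelian groups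
that are divisible by all elements of `P`. The functor `L` is right exact if and only if `P` is the set of
all primes. -/
theorem result (P : Set ℕ) (hP : ∀ p ∈ P, p.Prime) (hne : P.Nonempty) :
    ∃ 𝓛 : LocalizationFunctor.{u}, 𝓛.IsConditionallyFlat ∧ ¬ 𝓛.IsEpireflection ∧
      (∀ A : GrpCat.{u}, 𝓛.IsLocal A ↔ (∀ x y : A, x * y = y * x) ∧
        (∀ (x : A) (n : ℕ), 0 < n → x ^ n = 1 → x = 1) ∧ ∀ p ∈ P, ∀ x : A, ∃ y : A, y ^ p = x) ∧
      (𝓛.IsRightExact ↔ ∀ q : ℕ, q.Prime → q ∈ P) :=
  ⟨loc P hP, flat P hP, not_epi P hP hne, isLocal_iff P hP,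
    fun h => all_of_rightExact P hP h, fun h => rightExact P hP h⟩

end Pool.Agent.Results.MP_52d248_al.TorsionFreeAbelian
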